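import Pool.Graph.R_pool_sql_team_22a80281.Results.MP_457a5a_gt.Counter

/-!
# MP_457a5a_gt: one Gromov-Hausdorff geodesic with continuum many geodesic hulls

The realizations with parameter `l ∈ [0, 1]` of the library module move the third point with speed
`l`. The hull consists of three segments of lengths `1`, `1`, `l` with mutual distances at least
`10`, so that different `l` give non-isometric hulls.
-/

set_option autoImplicit false

open Set Metric GromovHausdorff unitInterval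

namespace Pool.Agent.Results.MP_457a5a_gt.ContinuumManyHulls

open Pool.Agent.Results.MP_457a5a_gt.Counter

theorem d_same {l : ℝ} (h0 : 0 ≤ l) (s t : I) :
    dist (P l s 0) (P l t 0) = |(s : ℝ) - t| ∧ dist (P l s 1) (P l t 1) = |(s : ℝ) - t| ∧
      dist (P l s 2) (P l t 2) = l * |(s : ℝ) - t| := by
  refine ⟨?_, by simp [P, Prod.dist_eq, Real.dist_eq],
    by simp [P, Prod.dist_eq, Real.dist_eq, ← mul_sub, abs_mul, abs_of_nonneg h0, mul_nonneg h0]⟩
  simp only [P, Prod.dist_eq, Real.dist_eq]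
  simp [show -5 - (s : ℝ) - (-5 - t) = -(s - t) by ring, -neg_sub]

theorem seg {l : ℝ} (h0 : 0 ≤ l) (h1 : l ≤ 1) (i : Fin 3) :
    l ≤ dist (P l 0 i) (P l 1 i) := by
  obtain ⟨e0, e1, e2⟩ := d_same h0 (0 : I) 1
  have h : |((0 : I) : ℝ) - (1 : I)| = 1 := by norm_num
  rw [h] at e0 e1 e2
  fin_cases i
  · exact h1.trans e0.symm.le
  · exact h1.trans e1.symm.le
  · exact (mul_one l).symm.le.trans e2.symm.le

theorem within {l : ℝ} (h0 : 0 ≤ l) (h1 : l ≤ 1) (s t : I) (i : Fin 3) :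
    dist (P l s i) (P l t i) ≤ 1 := by
  refine (mv h0 h1 s t i).1.trans ?_
  exact abs_sub_le_iff.2 ⟨by linarith [s.2.2, t.2.1], by linarith [s.2.1, t.2.2]⟩

theorem third {l : ℝ} (h0 : 0 ≤ l) (s t : I) : dist (P l s 2) (P l t 2) ≤ l := by
  have e : dist (P l s 2) (P l t 2) = l * |(s : ℝ) - t| := by
    simp [P, Prod.dist_eq, Real.dist_eq, ← mul_sub, abs_mul, abs_of_nonneg h0, mul_nonneg h0]
  rw [e]
  have : |(s : ℝ) - t| ≤ 1 :=
    abs_sub_le_iff.2 ⟨by linarith [s.2.2, t.2.1], by linarith [s.2.1, t.2.2]⟩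
  nlinarith

/-- The realization with parameter `l` in the closed ball of radius `R`. -/
def re {R : ℝ} (hR : 10 ≤ R) (l t : I) (i : W t) : closedBall (0 : ℝ × ℝ) R :=
  ⟨P l t i, bd l.2.1 l.2.2 hR t i⟩

/-- Points of the hull near the point `(2, t = 0)` are on the third segment. -/
theorem near_third {R : ℝ} (hR : 10 ≤ R) (l : I) (z : (⋃ t, range (re hR l t) :
    Set (closedBall (0 : ℝ × ℝ) R)))
    (h : dist (z : closedBall (0 : ℝ × ℝ) R) (re hR l 0 (2 : Fin 3)) ≤ 1) :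
    ∃ t : I, (z : closedBall (0 : ℝ × ℝ) R) = re hR l t (2 : Fin 3) := by
  obtain ⟨z, hz⟩ := z
  obtain ⟨t, i, rfl⟩ := mem_iUnion.1 hz
  refine ⟨t, ?_⟩
  change dist (P l t i) (P l 0 2) ≤ 1 at h
  have b := d1 l.2.1 l.2.2 t 0
  change Fin 3 at i
  fin_cases i
  · exact absurd (b.1.symm.le.trans h) (by norm_num)
  · exact absurd (b.2.symm.le.trans h) (by norm_num)
  · rfl

theorem not_iso_of_lt {R R' : ℝ} (hR : 10 ≤ R) (hR' : 10 ≤ R') {l m : I} (hlm : l < m)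
    (e : (⋃ t, range (re hR l t) : Set (closedBall (0 : ℝ × ℝ) R)) ≃ᵢ
      (⋃ t, range (re hR' m t) : Set (closedBall (0 : ℝ × ℝ) R'))) : False := by
  have hlm' : (l : ℝ) < m := hlm
  obtain ⟨⟨_, hz⟩, ez⟩ : ∃ z, z = e ⟨_, mem_iUnion.2 ⟨0, (2 : Fin 3), rfl⟩⟩ := ⟨_, rfl⟩
  obtain ⟨t, i, rfl⟩ := mem_iUnion.1 hz
  -- the two ends of the segment of the image
  have hends : ∀ s : I, ∃ u : I, ∀ (hm : re hR' m s i ∈ (⋃ t, range (re hR' m t))),
      ((e.symm ⟨re hR' m s i, hm⟩ : (⋃ t, range (re hR l t) : Set (closedBall (0 : ℝ × ℝ) R))) :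
        closedBall (0 : ℝ × ℝ) R) = re hR l u (2 : Fin 3) := by
    intro s
    have hm : re hR' m s i ∈ (⋃ t, range (re hR' m t)) := mem_iUnion.2 ⟨s, i, rfl⟩
    have h1 : dist (e.symm ⟨re hR' m s i, hm⟩) ⟨_, mem_iUnion.2 ⟨0, (2 : Fin 3), rfl⟩⟩ ≤ 1 := by
      rw [← e.dist_eq, e.apply_symm_apply, ← ez]
      exact within m.2.1 m.2.2 s t i
    obtain ⟨u, hu⟩ := near_third hR l _ h1
    exact ⟨u, fun _ => hu⟩
  obtain ⟨u0, hu0⟩ := hends 0
  obtain ⟨u1, hu1⟩ := hends 1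
  have hm0 : re hR' m 0 i ∈ (⋃ t, range (re hR' m t)) := mem_iUnion.2 ⟨0, i, rfl⟩
  have hm1 : re hR' m 1 i ∈ (⋃ t, range (re hR' m t)) := mem_iUnion.2 ⟨1, i, rfl⟩
  have h2 := e.symm.dist_eq ⟨re hR' m 0 i, hm0⟩ ⟨re hR' m 1 i, hm1⟩
  rw [Subtype.dist_eq, hu0 hm0, hu1 hm1] at h2
  have h3 : dist (re hR l u0 (2 : Fin 3)) (re hR l u1 (2 : Fin 3)) ≤ l := third l.2.1 u0 u1
  have h4 : (m : ℝ) ≤ dist (re hR' m 0 i) (re hR' m 1 i) := seg m.2.1 m.2.2 i
  have h5 : dist (re hR l u0 (2 : Fin 3)) (re hR l u1 (2 : Fin 3)) =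
      dist (re hR' m 0 i) (re hR' m 1 i) := h2
  linarith

theorem not_iso {R R' : ℝ} (hR : 10 ≤ R) (hR' : 10 ≤ R') {l m : I} (hlm : l ≠ m) :
    IsEmpty ((⋃ t, range (re hR l t) : Set (closedBall (0 : ℝ × ℝ) R)) ≃ᵢ
      (⋃ t, range (re hR' m t) : Set (closedBall (0 : ℝ × ℝ) R'))) := by
  refine ⟨fun e => ?_⟩
  rcases lt_or_gt_of_ne hlm with h | h
  · exact not_iso_of_lt hR hR' h e
  · exact not_iso_of_lt hR' hR h e.symm

theorem ball_not_iso_of_lt {R R' : ℝ} (h0 : 0 ≤ R) (h : R < R')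
    (e : closedBall (0 : ℝ × ℝ) R' ≃ᵢ closedBall (0 : ℝ × ℝ) R) : False := by
  have m1 : ((R', 0) : ℝ × ℝ) ∈ closedBall (0 : ℝ × ℝ) R' := by
    rw [mem_closedBall_zero_iff, Prod.norm_def]
    simp [abs_of_nonneg (h0.trans h.le), h0.trans h.le]
  have m2 : ((-R', 0) : ℝ × ℝ) ∈ closedBall (0 : ℝ × ℝ) R' := by
    rw [mem_closedBall_zero_iff, Prod.norm_def]
    simp [abs_of_nonneg (h0.trans h.le), h0.trans h.le]
  have h1 := e.dist_eq ⟨_, m1⟩ ⟨_, m2⟩
  have a := (e ⟨_, m1⟩).2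
  have b := (e ⟨_, m2⟩).2
  have c := dist_triangle_right (e ⟨_, m1⟩).1 (e ⟨_, m2⟩).1 0
  rw [mem_closedBall] at a b
  have h2 : dist (⟨(R', 0), m1⟩ : closedBall (0 : ℝ × ℝ) R') ⟨(-R', 0), m2⟩ = 2 * R' := by
    rw [Subtype.dist_eq, Prod.dist_eq, Real.dist_eq]
    simp
    rw [show R' + R' = 2 * R' by ring, abs_of_nonneg (by linarith)]
  rw [h2, Subtype.dist_eq] at h1
  linarith

/-- **One Gromov-Hausdorff geodesic with continuum many hulls.** There is a Gromov-Hausdorff geodesic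
`W` (of three-point spaces, with `d_GH(W 0, W 1) = 1`) such that (1) there are pairwise non-isometric
compact metric spaces `X l` and Hausdorff realizations of `W` in `X l`, `l ∈ [0, 1]`, with pairwise
non-isometric hulls; (2) there are one compact metric space `X` and Hausdorff realizations
`φ l`, `l ∈ [0, 1]`, of `W` in the same `X` with pairwise non-isometric hulls. -/
theorem result :
    ∃ (W : I → Type) (_ : ∀ t, MetricSpace (W t)) (_ : ∀ t, CompactSpace (W t))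
      (_ : ∀ t, Nonempty (W t)),
      (∀ s t : I, ghDist (W s) (W t) = |(s : ℝ) - t|) ∧
      (∃ (X : I → Type) (_ : ∀ l, MetricSpace (X l)) (_ : ∀ l, CompactSpace (X l))
        (φ : ∀ l t, W t → X l), (∀ l, Realizes W (X l) (φ l)) ∧
        ∀ l m, l ≠ m → IsEmpty (X l ≃ᵢ X m) ∧
          IsEmpty ((⋃ t, range (φ l t) : Set (X l)) ≃ᵢ (⋃ t, range (φ m t) : Set (X m)))) ∧
      ∃ (X : Type) (_ : MetricSpace X) (_ : CompactSpace X) (φ : ∀ (_ : I) t, W t → X),
        (∀ l, Realizes W X (φ l)) ∧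
        ∀ l m, l ≠ m →
          IsEmpty ((⋃ t, range (φ l t) : Set X) ≃ᵢ (⋃ t, range (φ m t) : Set X)) := by
  have hR : ∀ l : I, (10 : ℝ) ≤ 10 + l := fun l => by linarith [l.2.1]
  refine ⟨W, inferInstance, inferInstance, inferInstance,
    (real (l := 0) (R := 10) le_rfl zero_le_one le_rfl).2, ?_, ?_⟩
  · refine ⟨fun l => closedBall (0 : ℝ × ℝ) (10 + l), fun l => inferInstance,
      fun l => isCompact_iff_compactSpace.1 (isCompact_closedBall _ _),
      fun l t => re (hR l) l t, fun l => (real l.2.1 l.2.2 (hR l)).1, fun l m hlm => ⟨⟨fun e => ?_⟩,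
        not_iso (hR l) (hR m) hlm⟩⟩
    rcases lt_or_gt_of_ne hlm with h | h
    · exact ball_not_iso_of_lt (by linarith [hR l]) (add_lt_add_right (show (l : ℝ) < m from h) 10)
        e.symm
    · exact ball_not_iso_of_lt (by linarith [hR m]) (add_lt_add_right (show (m : ℝ) < l from h) 10) e
  · exact ⟨closedBall (0 : ℝ × ℝ) 10, inferInstance,
      isCompact_iff_compactSpace.1 (isCompact_closedBall _ _), fun l t => re le_rfl l t,
      fun l => (real l.2.1 l.2.2 le_rfl).1, fun l m hlm => not_iso le_rfl le_rfl hlm⟩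

end Pool.Agent.Results.MP_457a5a_gt.ContinuumManyHulls
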