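import Pool.Agent.KS6_91.GH.Two

/-!
# Gromov-Hausdorff geodesics with a continuum of geodesic hulls

**Theorem.** (1) Let `W` be a Gromov-Hausdorff geodesic which is Hausdorff-realized in some compact space
such that some point of the space at the time `s` and some point of the space at the time `t` are closer
to each other than `d_GH(W s, W t)` (for instance the images at two times are different and not disjoint).
Then `W` has Hausdorff realizations in compact spaces `X_a`, `a ∈ [0, 1]`, such that the spaces `X_a`, and also
their geodesic hulls, are pairwise not isometric. (2) There are such geodesics with every given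
compact metric space as initial point (with length `1`). So Q1 is false for geodesics starting anywhere in
the Gromov-Hausdorff space, with a continuum of different hulls for one geodesic. (3) The condition in (1)
cannot be omitted: for the geodesic `t ↦ {0, t}` all geodesic hulls are isometric to the interval `[0, 1]`.

Proof. (1) Let `D` be the length of the geodesic. For `0 < a ≤ 1` the set of the pairs `(z, a D t)`, `z` in
the image of `W t`, with the metric `max (d(z, z'), a D |t - t'|)`, is compact and realizes the geodesic,
since the added term is not greater than `d_GH(W s, W t) = D |s - t|`. For `a < b` there is a surjective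
nonexpansive map from the space for `b` to the space for `a`. If these spaces are isometric, then
this map is an isometry, because a surjective nonexpansive map of a compact metric space to itself is an
isometry. But it decreases the distance of the two points, if `a` is near `1`. (2) The
geodesic is `t ↦ Y × [-t, t]` with the sum metric. (3) The realizations are rigid: all inequalities for the
distances are equalities.
-/

set_option autoImplicit false

open Set Metric GromovHausdorff unitInterval Pool.Agent.KS6_91.GH

namespace Pool.Agent.Results.MP_457a5a_gt.ContinuumOfHulls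

/-- **Theorem.** (1) If in a Hausdorff realization of a Gromov-Hausdorff geodesic `W` two points of the
spaces at two times are closer than the Gromov-Hausdorff distance of these spaces, then `W` has a
family of Hausdorff realizations, indexed by `[0, 1]`, whose hulls are pairwise not isometric. (2) Every
nonempty compact metric space is the initial point of such a geodesic. (3) There is a nonconstant
geodesic, realizable, for which every hull is isometric to the interval `[0, 1]`. -/
theorem result :
    (∀ (W : I → Type) [∀ t, MetricSpace (W t)] [∀ t, CompactSpace (W t)] [∀ t, Nonempty (W t)]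
      (X : Type) [MetricSpace X] [CompactSpace X] (φ : ∀ t, W t → X), Geodesic W →
      Realizes W X φ →
      (∃ (s t : I) (x : W s) (y : W t), dist (φ s x) (φ t y) < ghDist (W s) (W t)) →
        ManyHulls W) ∧
    (∀ (Y : Type) [MetricSpace Y] [CompactSpace Y] [Nonempty Y],
      ∃ (W : I → Type) (_ : ∀ t, MetricSpace (W t)) (_ : ∀ t, CompactSpace (W t))
        (_ : ∀ t, Nonempty (W t)),
        Nonempty (W 0 ≃ᵢ Y) ∧ Geodesic W ∧ ghDist (W 0) (W 1) = 1 ∧ ManyHulls W) ∧
    ∃ (W : I → Type) (_ : ∀ t, MetricSpace (W t)) (_ : ∀ t, CompactSpace (W t))
      (_ : ∀ t, Nonempty (W t)),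
      Geodesic W ∧ ghDist (W 0) (W 1) = 1 / 2 ∧
      (∃ (X : Type) (_ : MetricSpace X) (φ : ∀ t, W t → X), CompactSpace X ∧ Realizes W X φ) ∧
      ∀ (X : Type) [MetricSpace X] [CompactSpace X] (φ : ∀ t, W t → X), Realizes W X φ →
        Nonempty (hull φ ≃ᵢ Icc (0 : ℝ) 1) := by
  refine ⟨?_, ?_, ?_⟩
  · rintro W _ _ _ X _ _ φ hW hφ ⟨s, t, x, y, h⟩
    exact criterion hW hφ h
  · intro Y _ _ _
    obtain ⟨h1, h2, h3⟩ := geodesic_Wt (Y := Y)
    exact ⟨fun t : I => Wt Y t, inferInstance, inferInstance, inferInstance, ⟨isoZero⟩, h1, h2, h3⟩
  · obtain ⟨h1, h2, ⟨φ, hφ⟩, h4⟩ := uniqueT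
    exact ⟨fun t : I => Tt t, inferInstance, inferInstance, inferInstance, h1, h2,
      ⟨Icc (-1 : ℝ) 1, inferInstance, φ, isCompact_iff_compactSpace.1 isCompact_Icc, hφ⟩,
      fun X _ _ φ h => h4 X φ h⟩

end Pool.Agent.Results.MP_457a5a_gt.ContinuumOfHulls
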